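import Pool.Agent.Helper28.LV.StL

/-!
# Project LV, module RgT: calculus of bihomogeneous functions
-/

set_option autoImplicit false

open Pool.Agent.Helper14.CV Pool.Agent.Helper28.WK Pool.Agent.Helper28.LV

namespace Pool.Agent.Helper34.LV

/-- homogeneous of degree `n` in two variables -/
private def H2 {K : Type} [Field K] (n : ℕ) (f : K → K → K) : Prop :=
  ∃ q : ℕ → K, ∀ x y : K, f x y = ∑ k ∈ Finset.range (n + 1), q k * (x ^ (n - k) * y ^ k)

private lemma H2.step {K : Type} [Field K] {n : ℕ} {f : K → K → K} (h : H2 n f) (u v : K) :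
    H2 (n + 1) (fun x y => (x * u + y * v) * f x y) := by
  obtain ⟨q, hq⟩ := h
  refine ⟨fun k => u * (if k < n + 1 then q k else 0) + v * (if k = 0 then 0 else q (k - 1)),
    fun x y => ?_⟩
  show (x * u + y * v) * f x y = _
  rw [hq x y]
  simp only [add_mul]
  rw [Finset.sum_add_distrib]
  congr 1
  · rw [Finset.sum_range_succ _ (n + 1), if_neg (lt_irrefl _), mul_zero, zero_mul, add_zero, Finset.mul_sum]
    refine Finset.sum_congr rfl fun k hk => ?_
    have hk' := Finset.mem_range.1 hk
    rw [if_pos hk']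
    have e : n + 1 - k = (n - k) + 1 := by omega
    rw [e, pow_succ]
    ring
  · rw [Finset.sum_range_succ' _ (n + 1), if_pos rfl, mul_zero, zero_mul, add_zero, Finset.mul_sum]
    refine Finset.sum_congr rfl fun k hk => ?_
    rw [if_neg (Nat.succ_ne_zero k)]
    have e : n + 1 - (k + 1) = n - k := by omega
    rw [e, Nat.add_sub_cancel, pow_succ]
    ring

private lemma H2.pw {K : Type} [Field K] (a' b' c' d' : K) (i : ℕ) : ∀ m : ℕ,
    H2 (m + i) (fun x y : K => (x * a' + y * c') ^ m * (x * b' + y * d') ^ i) := by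
  have h0 : H2 (0 + i) (fun x y : K => (x * a' + y * c') ^ 0 * (x * b' + y * d') ^ i) := by
    rw [zero_add]
    induction i with
    | zero => exact ⟨fun _ => 1, fun x y => by simp⟩
    | succ i ih =>
      obtain ⟨q, hq⟩ := ih.step b' d'
      exact ⟨q, fun x y => by rw [← hq x y]; ring⟩
  intro m
  induction m with
  | zero => exact h0
  | succ m ih =>
    have e : m + 1 + i = (m + i) + 1 := by omega
    rw [e]
    obtain ⟨q, hq⟩ := ih.step a' c'
    exact ⟨q, fun x y => by rw [← hq x y]; ring⟩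

private lemma refl {K : Type} [Field K] (a : ℕ) (f : ℕ → K) :
    ∑ k ∈ Finset.range (a + 1), f (a - k) = ∑ k ∈ Finset.range (a + 1), f k := by
  have := Finset.sum_range_reflect f (a + 1)
  rw [← this]
  refine Finset.sum_congr rfl fun k _ => ?_
  congr 1

/-- RGT. -/
theorem hRgT : RgT := by
  intro p _ a F ⟨P, hP⟩
  refine ⟨?_, ?_, ?_, ?_, ?_⟩
  · intro a' b' c' d'
    have hA : ∀ i : ℕ, ∃ q : ℕ → ℚ_[p], i ≤ a → ∀ x y : ℚ_[p],
        (x * a' + y * c') ^ (a - i) * (x * b' + y * d') ^ i =
          ∑ k ∈ Finset.range (a + 1), q k * (x ^ (a - k) * y ^ k) := by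
      intro i
      by_cases hi : i ≤ a
      · obtain ⟨q, hq⟩ := H2.pw a' b' c' d' i (a - i)
        rw [Nat.sub_add_cancel hi] at hq
        exact ⟨q, fun _ => hq⟩
      · exact ⟨fun _ => 0, fun h => absurd h hi⟩
    have hB : ∀ j : ℕ, ∃ q : ℕ → ℚ_[p], j ≤ a → ∀ x y : ℚ_[p],
        (x * a' + y * c') ^ j * (x * b' + y * d') ^ (a - j) =
          ∑ k ∈ Finset.range (a + 1), q k * (x ^ k * y ^ (a - k)) := by
      intro j
      by_cases hj : j ≤ a
      · obtain ⟨q, hq⟩ := H2.pw a' b' c' d' (a - j) j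
        have e : j + (a - j) = a := by omega
        rw [e] at hq
        refine ⟨fun k => q (a - k), fun _ x y => ?_⟩
        have hq' := hq x y
        simp only at hq'
        rw [hq', ← refl a (fun k => q k * (x ^ (a - k) * y ^ k))]
        refine Finset.sum_congr rfl fun k hk => ?_
        have hk' := Finset.mem_range.1 hk
        have e2 : a - (a - k) = k := by omega
        simp only [e2]
      · exact ⟨fun _ => 0, fun h => absurd h hj⟩
    choose qA hqA using hA
    choose qB hqB using hB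
    refine ⟨fun k l => ∑ i ∈ Finset.range (a + 1), ∑ j ∈ Finset.range (a + 1),
      P i j * (qA i k * qB j l), fun α β γ δ => ?_⟩
    beta_reduce
    rw [hP]
    have e1 : ∀ i ∈ Finset.range (a + 1), ∀ j ∈ Finset.range (a + 1),
        P i j * ((α * a' + β * c') ^ (a - i) * (α * b' + β * d') ^ i *
          ((γ * a' + δ * c') ^ j * (γ * b' + δ * d') ^ (a - j))) =
        ∑ k ∈ Finset.range (a + 1), ∑ l ∈ Finset.range (a + 1),
          P i j * (qA i k * qB j l) * (α ^ (a - k) * β ^ k * (γ ^ l * δ ^ (a - l))) := by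
      intro i hi j hj
      have hi' := Finset.mem_range.1 hi
      have hj' := Finset.mem_range.1 hj
      rw [hqA i (by omega), hqB j (by omega), Finset.sum_mul_sum, Finset.mul_sum]
      refine Finset.sum_congr rfl fun k _ => ?_
      rw [Finset.mul_sum]
      refine Finset.sum_congr rfl fun l _ => ?_
      ring
    rw [Finset.sum_congr rfl fun i hi => Finset.sum_congr rfl fun j hj => e1 i hi j hj]
    simp only [Finset.sum_mul]
    -- reorder the four sums
    calc ∑ i ∈ Finset.range (a + 1), ∑ j ∈ Finset.range (a + 1),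
          ∑ k ∈ Finset.range (a + 1), ∑ l ∈ Finset.range (a + 1),
          P i j * (qA i k * qB j l) * (α ^ (a - k) * β ^ k * (γ ^ l * δ ^ (a - l)))
        = ∑ i ∈ Finset.range (a + 1), ∑ k ∈ Finset.range (a + 1),
          ∑ j ∈ Finset.range (a + 1), ∑ l ∈ Finset.range (a + 1),
          P i j * (qA i k * qB j l) * (α ^ (a - k) * β ^ k * (γ ^ l * δ ^ (a - l))) :=
          Finset.sum_congr rfl fun i _ => Finset.sum_comm
      _ = ∑ k ∈ Finset.range (a + 1), ∑ i ∈ Finset.range (a + 1),
          ∑ j ∈ Finset.range (a + 1), ∑ l ∈ Finset.range (a + 1),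
          P i j * (qA i k * qB j l) * (α ^ (a - k) * β ^ k * (γ ^ l * δ ^ (a - l))) :=
          Finset.sum_comm
      _ = ∑ k ∈ Finset.range (a + 1), ∑ i ∈ Finset.range (a + 1),
          ∑ l ∈ Finset.range (a + 1), ∑ j ∈ Finset.range (a + 1),
          P i j * (qA i k * qB j l) * (α ^ (a - k) * β ^ k * (γ ^ l * δ ^ (a - l))) :=
          Finset.sum_congr rfl fun k _ => Finset.sum_congr rfl fun i _ => Finset.sum_comm
      _ = ∑ k ∈ Finset.range (a + 1), ∑ l ∈ Finset.range (a + 1),
          ∑ i ∈ Finset.range (a + 1), ∑ j ∈ Finset.range (a + 1),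
          P i j * (qA i k * qB j l) * (α ^ (a - k) * β ^ k * (γ ^ l * δ ^ (a - l))) :=
          Finset.sum_congr rfl fun k _ => Finset.sum_comm
  · intro s t
    refine ⟨fun i j => P i j * (s ^ i * t ^ j), fun α β γ δ => ?_⟩
    beta_reduce
    rw [hP]
    refine Finset.sum_congr rfl fun i _ => Finset.sum_congr rfl fun j _ => ?_
    rw [mul_pow, mul_pow]
    ring
  · refine ⟨fun i j => (-1) ^ a * P (a - j) (a - i), fun α β γ δ => ?_⟩
    beta_reduce
    rw [hP, ← refl a (fun i => ∑ j ∈ Finset.range (a + 1), (-1) ^ a * P (a - j) (a - i) *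
      (α ^ (a - i) * β ^ i * (γ ^ j * δ ^ (a - j)))), Finset.sum_comm]
    refine Finset.sum_congr rfl fun j hj => ?_
    rw [← refl a (fun i => (-1) ^ a * P (a - i) (a - (a - j)) *
      (α ^ (a - (a - j)) * β ^ (a - j) * (γ ^ i * δ ^ (a - i))))]
    refine Finset.sum_congr rfl fun i hi => ?_
    have hj' := Finset.mem_range.1 hj
    have hi' := Finset.mem_range.1 hi
    have e1 : a - (a - j) = j := by omega
    have e2 : a - (a - i) = i := by omega
    simp only [e1, e2]
    have e3 : (-1 : ℚ_[p]) ^ a = (-1) ^ (a - i) * (-1) ^ i := by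
      rw [← pow_add, Nat.sub_add_cancel (by omega)]
    rw [e3, neg_pow γ, neg_pow δ]
    ring
  · rintro G c d ⟨Q, hQ⟩
    refine ⟨fun i j => c * P i j + d * Q i j, fun α β γ δ => ?_⟩
    beta_reduce
    rw [hP, hQ, Finset.mul_sum, Finset.mul_sum, ← Finset.sum_add_distrib]
    refine Finset.sum_congr rfl fun i _ => ?_
    rw [Finset.mul_sum, Finset.mul_sum, ← Finset.sum_add_distrib]
    refine Finset.sum_congr rfl fun j _ => ?_
    ring
  · intro s t α β γ δ
    rw [hP, hP, Finset.mul_sum]
    refine Finset.sum_congr rfl fun i hi => ?_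
    rw [Finset.mul_sum]
    refine Finset.sum_congr rfl fun j hj => ?_
    have hj' := Finset.mem_range.1 hj
    have hi' := Finset.mem_range.1 hi
    have e1 : s ^ a = s ^ (a - i) * s ^ i := by rw [← pow_add, Nat.sub_add_cancel (by omega)]
    have e2 : t ^ a = t ^ j * t ^ (a - j) := by
      rw [← pow_add, Nat.add_sub_cancel' (by omega)]
    rw [mul_pow s t, e1, e2, mul_pow, mul_pow, mul_pow, mul_pow]
    ring

end Pool.Agent.Helper34.LV
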